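import Pool.Agent.Y44.SY.QB

/-!
# Project SYT: norm of an immersion (SYT-IMM)
-/

set_option autoImplicit false

open Set Filter Topology MeasureTheory
open scoped Manifold ContDiff

noncomputable section

namespace Pool.Agent.Y44.SY

open Pool.Agent.Y501.SY Pool.Agent.Y455.SY

theorem t_IMM : S_IMM := by
  intro d m X _ _ _ F hF hinj x₀ N hN hNt
  set c := chartAt (E d) x₀ with hc
  set G : E d → E m := F ∘ c.symm with hG
  have hG1 : ContMDiffOn (𝓡 d) (𝓡 m) ∞ G c.target :=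
    hF.comp_contMDiffOn contMDiffOn_chart_symm
  have hG2 : ContDiffOn ℝ ∞ G c.target := contMDiffOn_iff_contDiffOn.1 hG1
  have hG3 : ContinuousOn (fderiv ℝ G) c.target :=
    hG2.continuousOn_fderiv_of_isOpen c.open_target (by simp)
  have hnm : ∀ p ∈ c.target, ∀ v : E d,
      nm F (c.symm p) (mfderiv (𝓡 d) (𝓡 d) c.symm p v) = ‖fderiv ℝ G p v‖ := by
    intro p hp v
    have h1 : MDifferentiableAt (𝓡 d) (𝓡 m) F (c.symm p) := hF.mdifferentiableAt (by simp)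
    have h2 : MDifferentiableAt (𝓡 d) (𝓡 d) c.symm p :=
      ((contMDiffOn_chart_symm (n := ∞)).contMDiffAt (c.open_target.mem_nhds hp)).mdifferentiableAt
        (by simp)
    have h3 : mfderiv (𝓡 d) (𝓡 m) G p = (mfderiv (𝓡 d) (𝓡 m) F (c.symm p)).comp
      (mfderiv (𝓡 d) (𝓡 d) c.symm p) := mfderiv_comp p h1 h2
    have h4 : mfderiv (𝓡 d) (𝓡 m) G p = fderiv ℝ G p := mfderiv_eq_fderiv
    rw [← h4, h3]
    rfl
  have hpos : ∀ p ∈ c.target, ∀ v : E d, v ≠ 0 → 0 < ‖fderiv ℝ G p v‖ := by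
    intro p hp v hv
    rw [← hnm p hp]
    refine norm_pos_iff.2 ?_
    intro h0
    apply hv
    have h1 : mfderiv (𝓡 d) (𝓡 m) F (c.symm p) (mfderiv (𝓡 d) (𝓡 d) c.symm p v) =
        mfderiv (𝓡 d) (𝓡 m) F (c.symm p) 0 := by
      rw [map_zero]
      exact h0
    have h2 := hinj _ h1
    have h3 := BA x₀ hp v
    have h4 : A x₀ p v = 0 := h2
    rw [h4, map_zero] at h3
    exact h3.symm
  have hK : IsCompact (N ×ˢ Metric.sphere (0 : E d) 1) := hN.prod (isCompact_sphere _ _)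
  have hcont : ContinuousOn (fun z : E d × E d => ‖fderiv ℝ G z.1 z.2‖)
      (N ×ˢ Metric.sphere (0 : E d) 1) := by
    have h1 : ContinuousOn (fun z : E d × E d => fderiv ℝ G z.1)
        (N ×ˢ Metric.sphere (0 : E d) 1) :=
      hG3.comp continuousOn_fst fun z hz => hNt hz.1
    exact (h1.clm_apply continuousOn_snd).norm
  obtain ⟨a, ha, hmin⟩ := exists_min hK hcont (by
    rintro ⟨p, v⟩ ⟨hp, hv⟩
    refine hpos p (hNt hp) v ?_
    rintro rfl
    simp at hv)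
  obtain ⟨b, hb, hmax⟩ := exists_max hK hcont
  refine ⟨a, b, ha, hb, fun p hp v => ?_⟩
  rw [hnm p (hNt hp)]
  by_cases hv : v = 0
  · rw [hv, map_zero]
    simp
  · obtain ⟨hu, hvu⟩ := unit_vec hv
    have h1 := hmin (p, ‖v‖⁻¹ • v) ⟨hp, hu⟩
    have h2 := hmax (p, ‖v‖⁻¹ • v) ⟨hp, hu⟩
    have h3 : ‖fderiv ℝ G p v‖ = ‖v‖ * ‖fderiv ℝ G p (‖v‖⁻¹ • v)‖ := by
      conv_lhs => rw [← hvu]
      rw [map_smul, norm_smul, norm_norm]
    have h4 := norm_nonneg v
    rw [h3]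
    constructor
    · rw [mul_comm]
      exact mul_le_mul_of_nonneg_left h1 h4
    · rw [mul_comm b]
      exact mul_le_mul_of_nonneg_left h2 h4

end Pool.Agent.Y44.SY
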