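import Pool.Agent.Y501.SY.StmT

/-!
# Project SYT: bounds on compact subsets of charts (SYT-QB, SYT-IMM)
-/

set_option autoImplicit false

open Set Filter Topology MeasureTheory
open scoped Manifold ContDiff

noncomputable section

namespace Pool.Agent.Y44.SY

open Pool.Agent.Y501.SY Pool.Agent.Y455.SY

theorem exists_min {d : ℕ} {K : Set (E d × E d)} (hK : IsCompact K) {q : E d × E d → ℝ}
    (hq : ContinuousOn q K) (hpos : ∀ z ∈ K, 0 < q z) : ∃ c, 0 < c ∧ ∀ z ∈ K, c ≤ q z := by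
  rcases K.eq_empty_or_nonempty with rfl | hne
  · exact ⟨1, one_pos, by simp⟩
  · obtain ⟨z, hz, hmin⟩ := hK.exists_isMinOn hne hq
    exact ⟨q z, hpos z hz, fun w hw => hmin hw⟩

theorem exists_max {Z : Type} [TopologicalSpace Z] {K : Set Z} (hK : IsCompact K) {q : Z → ℝ}
    (hq : ContinuousOn q K) : ∃ C, 0 < C ∧ ∀ z ∈ K, q z ≤ C := by
  obtain ⟨C, hC⟩ := hK.bddAbove_image hq
  exact ⟨max C 1, lt_max_of_lt_right one_pos, fun z hz => (hC ⟨z, hz, rfl⟩).trans (le_max_left _ _)⟩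

theorem unit_vec {d : ℕ} {v : E d} (hv : v ≠ 0) :
    ‖v‖⁻¹ • v ∈ Metric.sphere (0 : E d) 1 ∧ ‖v‖ • (‖v‖⁻¹ • v) = v := by
  constructor
  · rw [mem_sphere_zero_iff_norm, norm_smul, norm_inv, norm_norm,
      inv_mul_cancel₀ (norm_ne_zero_iff.2 hv)]
  · rw [smul_smul, mul_inv_cancel₀ (norm_ne_zero_iff.2 hv), one_smul]

theorem t_QB : S_QB := by
  intro d X _ _ _ J hJ τ hτ x₀ N hN hNt
  refine ⟨?_, fun htame => ?_⟩
  · have h1 : ContinuousOn (fun p => ‖pb (chartAt (E d) x₀).symm τ p‖) N :=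
      (((hτ _ _ (chartAt (E d) x₀).open_target (contMDiffOn_chart_symm)).continuousOn).mono
        hNt).norm
    have h2 : ContinuousOn (fun p => ‖inChart J x₀ p‖) N := ((hJ.cont x₀).mono hNt).norm
    obtain ⟨C₁, hC₁, hb₁⟩ := exists_max hN h1
    obtain ⟨C₂, hC₂, hb₂⟩ := exists_max hN h2
    refine ⟨C₁ + C₂ + C₁ * C₂, by positivity, fun p hp => ⟨?_, ?_, fun v => ?_⟩⟩
    · have := hb₁ p hp
      have h3 : 0 < C₁ * C₂ := by positivity
      linarith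
    · have := hb₂ p hp
      have h3 : 0 < C₁ * C₂ := by positivity
      linarith
    · have h4 := (pb (chartAt (E d) x₀).symm τ p).le_opNorm ![v, inChart J x₀ p v]
      rw [Real.norm_eq_abs, Fin.prod_univ_two] at h4
      have h5 : ‖inChart J x₀ p v‖ ≤ C₂ * ‖v‖ :=
        ((inChart J x₀ p).le_opNorm v).trans
          (mul_le_mul_of_nonneg_right (hb₂ p hp) (norm_nonneg v))
      have h6 : ‖pb (chartAt (E d) x₀).symm τ p‖ * (‖v‖ * ‖inChart J x₀ p v‖) ≤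
          C₁ * (‖v‖ * (C₂ * ‖v‖)) := by
        have := hb₁ p hp
        have h7 := norm_nonneg v
        gcongr
      have h8 : |pb (chartAt (E d) x₀).symm τ p ![v, inChart J x₀ p v]| ≤
          C₁ * (‖v‖ * (C₂ * ‖v‖)) := h4.trans h6
      have h9 : 0 ≤ (C₁ + C₂) * ‖v‖ ^ 2 := by positivity
      calc |pb (chartAt (E d) x₀).symm τ p ![v, inChart J x₀ p v]| ≤ C₁ * (‖v‖ * (C₂ * ‖v‖)) := h8
        _ ≤ (C₁ + C₂ + C₁ * C₂) * ‖v‖ ^ 2 := by nlinarith
  · have hK : IsCompact (N ×ˢ Metric.sphere (0 : E d) 1) := hN.prod (isCompact_sphere _ _)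
    obtain ⟨c, hc, hmin⟩ := exists_min hK (q := fun z => Q τ J x₀ z.1 z.2) (by
      rintro ⟨p, v⟩ ⟨hp, -⟩
      exact (Q_cont hτ hJ x₀ (hNt hp)).continuousWithinAt) (by
      rintro ⟨p, v⟩ ⟨hp, hv⟩
      refine (tames_iff τ J x₀ (hNt hp)).1 (htame p hp) v ?_
      rintro rfl
      simp at hv)
    refine ⟨c, hc, fun p hp v => ?_⟩
    show c * ‖v‖ ^ 2 ≤ Q τ J x₀ p v
    by_cases hv : v = 0
    · have h1 := Q_smul τ J x₀ p 0 0
      rw [smul_zero] at h1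
      rw [hv, h1]
      simp
    · obtain ⟨hu, hvu⟩ := unit_vec hv
      have h1 := hmin (p, ‖v‖⁻¹ • v) ⟨hp, hu⟩
      have h2 := Q_smul τ J x₀ p (‖v‖⁻¹ • v) ‖v‖
      rw [hvu] at h2
      rw [h2, mul_comm]
      exact mul_le_mul_of_nonneg_left h1 (by positivity)

end Pool.Agent.Y44.SY
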